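import Pool.Agent.Lib.MCmp.MinPair
import Pool.Agent.Lib.MGen.Fin
import Pool.Agent.Lib.MGen.Main
import Pool.Agent.Lib.UDet.Trich

/-!
# If `φ (J a) ≤ φ a` on a cone then `φ` is bounded on a cone, hence constant on a cone
-/

set_option autoImplicit false

namespace Pool.Agent.MCmp

open Filter Set TopologicalSpace Pool.Agent.GammaZero Pool.Agent.Mart Pool.Agent.MGen Encodable

/-! ### finite Borel rank, exact jumps -/

private theorem bd_di_Wset (Z : ℕ → Bool) :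
    DI {orc Z} (fun q : ℕ × List Bool => Wset Z q.1 q.2) := by
  have h1 : DI {orc Z} (fun r : ((ℕ × List Bool) × ℕ) × ℕ =>
      res Z r.1.1.1 (encode (r.1.1.2.take r.1.2)) r.2 ≠ 0) := by
    refine DI.not (DI.eq (CI.app3 (ci_res Z) (CI.of_computable ?_) (CI.of_computable ?_)
      (CI.of_computable Computable.snd)) (CI.const 0))
    · exact Computable.fst.comp (Computable.fst.comp Computable.fst)
    · refine Computable.encode.comp ?_
      have : Primrec fun r : ((ℕ × List Bool) × ℕ) × ℕ => r.1.1.2.take r.1.2 :=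
        Primrec.list_take.comp (Primrec.snd.comp Primrec.fst)
          (Primrec.snd.comp (Primrec.fst.comp Primrec.fst))
      exact this.to_comp
  have h2 : DI {orc Z} (fun r : (ℕ × List Bool) × ℕ =>
      ∃ s < r.1.2.length, res Z r.1.1 (encode (r.1.2.take r.2)) s ≠ 0) :=
    DI.bex h1 (CI.of_computable (Computable.list_length.comp
      (Computable.snd.comp Computable.fst)))
  exact DI.bex h2 (CI.of_computable (Computable.succ.comp
    (Computable.list_length.comp Computable.snd)))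

private theorem bd_di_Dec (Z : ℕ → Bool) :
    DI {orc (jump Z)} (fun q : ℕ × List Bool => Dec Z q.1 q.2) := by
  have h1 : DI {orc Z} (fun r : (ℕ × List Bool) × ℕ => ¬ Wset Z r.1.1 (r.1.2 ++ dl r.2)) := by
    refine DI.not ((bd_di_Wset Z).comp_computable (g := fun r : (ℕ × List Bool) × ℕ =>
      (r.1.1, r.1.2 ++ dl r.2)) ?_)
    exact (Computable.fst.comp Computable.fst).pair (Computable.list_append.comp
      (Computable.snd.comp Computable.fst) (dl_computable.comp Computable.snd))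
  refine ((di_tr (bd_di_Wset Z) (tr_jump Z)).or (di_forall h1)).of_iff fun a => ?_
  unfold Dec
  rw [forall_ext_iff (ρ := a.2) (Q := fun τ => ¬ Wset Z a.1 τ)]

private theorem bd_dfam_Dec (Z : ℕ → Bool) : DFam (Dec Z) where
  mono i ρ τ h h' := Dec_mono h h'
  dense i ρ := dec_dense Z i ρ

/-- for all `c` in a cone there are two reals `G`, `H`, generic over `t`, with
`(t ⊕ G)^(M+1) ≡ (t ⊕ H)^(M+1) ≡ c` and such that `t^(m) ⊕ G`, `t^(m) ⊕ H` form a minimal pair over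
`t^(m)` (for `m ≤ M`) -/
theorem fin_pair (t : ℕ → Bool) {m M : ℕ} (hm : m ≤ M) :
    ∀ c, TR (jmp (M + 1) t) c → ∃ G H : ℕ → Bool, Gen (jmp M t) G ∧ Gen (jmp M t) H ∧
      Eqv (jmp (M + 1) (bjoin t G)) c ∧ Eqv (jmp (M + 1) (bjoin t H)) c ∧
      ∀ x, TR x (bjoin (jmp m t) G) → TR x (bjoin (jmp m t) H) → TR x (jmp m t) := by
  have hZ : TR (jump (jmp m t)) (jmp (M + 1) t) := by
    rw [← jmp_succ]
    exact jmp_tr_jmp t (by omega)
  have hDd := bd_di_Dec (jmp M t)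
  rw [← jmp_succ] at hDd
  obtain ⟨w, hlen, hpos, hne, hw, hdec, hmp⟩ := min_pair_blocks hZ (bd_dfam_Dec (jmp M t)) hDd
  intro c hc
  have hgen : ∀ e : ℕ → Bool, Gen (jmp M t) (brn w e) := fun e =>
    gen_of_dec fun i => ⟨bpos w (i + 1), hdec e i⟩
  have hE : ∀ e : ℕ → Bool, TR e c → TR c e → Eqv (jmp (M + 1) (bjoin t (brn w e))) c := by
    intro e h1 h2
    refine ⟨(jmp_bjoin (hgen e)).trans (bjoin_tr hc (brn_tr (ci_tr hw hc) h1)), h2.trans ?_⟩
    exact tr_brn hlen hpos hne (ci_tr hw (jmp_mono (tr_bjoin_left t (brn w e)) (M + 1)))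
      ((tr_bjoin_right t (brn w e)).trans (tr_jmp _ _))
  exact ⟨brn w c, brn w (flip c), hgen _, hgen _, hE c (TR.refl c) (TR.refl c),
    hE (flip c) (flip_tr c) (tr_flip c), fun x h1 h2 => hmp c x h1 h2⟩

theorem fin_bounded {φ : (ℕ → Bool) → (ℕ → Bool)} {n : ℕ}
    (hS : ∀ i, Sig n {A | φ A i = true}) (hinv : ∀ A B, Eqv A B → TR (φ A) (φ B)) {M : ℕ}
    (hM : n + 1 ≤ M) {C : ℕ → Bool} (hC : ∀ a, TR C a → TR (φ (jmp (M + 1) a)) (φ a)) :
    ∃ Z B, ∀ c, TR B c → TR (φ c) Z := by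
  obtain ⟨p, hp⟩ := phi_le hS
  refine ⟨jmp (n + 1) (bjoin C p), jmp (M + 1) (bjoin C p), fun c hc => ?_⟩
  obtain ⟨t, ht⟩ : ∃ t, t = bjoin C p := ⟨_, rfl⟩
  rw [← ht] at hc ⊢
  have hCt : TR C t := by rw [ht]; exact tr_bjoin_left _ _
  have hpt : TR p t := by rw [ht]; exact tr_bjoin_right _ _
  obtain ⟨G, H, hG, hH, eG, eH, h⟩ := fin_pair t hM c hc
  have key : ∀ K : ℕ → Bool, Gen (jmp M t) K → Eqv (jmp (M + 1) (bjoin t K)) c →
      TR (φ c) (bjoin (jmp (n + 1) t) K) := by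
    intro K hK eK
    have h1 : TR (φ c) (φ (bjoin t K)) :=
      (hinv _ _ eK.symm).trans (hC _ (hCt.trans (tr_bjoin_left _ _)))
    have h2 := hp (bjoin t K) (hpt.trans (tr_bjoin_left _ _))
    exact (h1.trans h2).trans (jmp_bjoin (hK.mono (jmp_tr_jmp t (by omega))))
  exact h _ (key G hG eG) (key H hH eH)

/-! ### the general case -/

variable {φ h : (ℕ → Bool) → (ℕ → Bool)} {base₀ base : ℕ → BC}

/-- the function which makes the second operator dominate the jump of the first -/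
noncomputable def hh (h : (ℕ → Bool) → (ℕ → Bool)) (base₀ : ℕ → BC) (a : ℕ → Bool) : ℕ → Bool :=
  bjoin (h a) (jump (JJ base₀ a))

theorem measurable_hh (hm : Measurable h) : Measurable (hh h base₀) :=
  measurable_bjoin hm (measurable_jump.comp (measurable_JJ base₀))

theorem op_pair {h' : (ℕ → Bool) → (ℕ → Bool)} (hb : IsBase φ h' base)
    (hj : ∀ a, TR (jump (JJ base₀ a)) (JJ base a)) (t : ℕ → Bool) :
    ∀ c, TR (JJ base t) c → ∃ G H : ℕ → Bool, Good base₀ t G ∧ Good base₀ t H ∧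
      Eqv (JJ base (bjoin t G)) c ∧ Eqv (JJ base (bjoin t H)) c ∧
      ∀ x, TR x (bjoin (JJ base₀ t) G) → TR x (bjoin (JJ base₀ t) H) → TR x (JJ base₀ t) := by
  have hD : DFam (fun i σ => DD base₀ t i σ ∧ DD base t i σ) := by
    constructor
    · intro i ρ τ h1 h2
      exact ⟨(dfam_DD base₀ t).mono i ρ τ h1 h2.1, (dfam_DD base t).mono i ρ τ h1 h2.2⟩
    · intro i ρ
      obtain ⟨τ, h1, h2⟩ := (dfam_DD base₀ t).dense i ρ
      obtain ⟨τ', h3, h4⟩ := (dfam_DD base t).dense i τ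
      exact ⟨τ', h1.trans h3, (dfam_DD base₀ t).mono i _ _ h3 h2, h4⟩
  have hj' : TR (JJ base₀ t) (JJ base t) := (tr_jump _).trans (hj t)
  have hDd : DI {orc (JJ base t)} (fun q : ℕ × List Bool =>
      DD base₀ t q.1 q.2 ∧ DD base t q.1 q.2) :=
    (di_tr (di_DD base₀ t) hj').and (di_DD base t)
  obtain ⟨w, hlen, hpos, hne, hw, hdec, hmp⟩ := min_pair_blocks (hj t) hD hDd
  intro c hc
  have hgood : ∀ (b' : ℕ → BC), (∀ (e : ℕ → Bool) (i : ℕ), DD b' t i (pre (brn w e)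
      (bpos w (i + 1)))) → ∀ e : ℕ → Bool, Good b' t (brn w e) := by
    intro b' hb' e n
    refine ⟨bpos w (n + 1), ?_⟩
    rcases hb' e n with h1 | ⟨k, -, h1⟩
    · exact Or.inl h1
    · exact Or.inr ⟨k, h1⟩
  have hg0 := hgood base₀ fun e i => (hdec e i).1
  have hg1 := hgood base fun e i => (hdec e i).2
  have hE : ∀ e : ℕ → Bool, TR e c → TR c e → Eqv (JJ base (bjoin t (brn w e))) c := by
    intro e h1 h2
    refine ⟨(JJ_bjoin (hg1 e)).trans (bjoin_tr hc (brn_tr (ci_tr hw hc) h1)), h2.trans ?_⟩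
    exact tr_brn hlen hpos hne (ci_tr hw (JJ_mono base (tr_bjoin_left t (brn w e))))
      ((tr_bjoin_right t (brn w e)).trans (tr_JJ_self hb _))
  exact ⟨brn w c, brn w (flip c), hg0 _, hg0 _, hE c (TR.refl c) (TR.refl c),
    hE (flip c) (flip_tr c) (tr_flip c), fun x h1 h2 => hmp c x h1 h2⟩

theorem op_bounded (hinv : ∀ A B, Eqv A B → TR (φ A) (φ B)) (hb₀ : IsBase φ h base₀)
    {h' : (ℕ → Bool) → (ℕ → Bool)} (hb : IsBase φ h' base)
    (hj : ∀ a, TR (jump (JJ base₀ a)) (JJ base a))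
    {C : ℕ → Bool} (hC : ∀ a, TR C a → TR (φ (JJ base a)) (φ a)) :
    ∃ Z B, ∀ c, TR B c → TR (φ c) Z := by
  refine ⟨JJ base₀ C, JJ base C, fun c hc => ?_⟩
  obtain ⟨G, H, hG, hH, eG, eH, h⟩ := op_pair hb hj C c hc
  have key : ∀ K : ℕ → Bool, Good base₀ C K → Eqv (JJ base (bjoin C K)) c →
      TR (φ c) (bjoin (JJ base₀ C) K) := by
    intro K hK eK
    have h1 : TR (φ c) (φ (bjoin C K)) :=
      (hinv _ _ eK.symm).trans (hC _ (tr_bjoin_left _ _))
    exact (h1.trans (tr_JJ_phi hb₀ _)).trans (JJ_bjoin hK)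
  exact h _ (key G hG eG) (key H hH eH)

end Pool.Agent.MCmp
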