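import Pool.Agent.Lib.MCmp.Bound

/-!
# The trichotomy for finite Borel rank: constant, above the identity, or the values at
`a, a', a'', …` are pairwise incomparable
-/

set_option autoImplicit false

namespace Pool.Agent.MCmp

open Filter Set TopologicalSpace Pool.Agent.GammaZero Pool.Agent.Mart Pool.Agent.MGen Encodable
open Pool.Agent.UDet

/-! ### finite joins -/

/-- the join of the reals `Y i`, `i < k` -/
def joinBelow (k : ℕ) (Y : ℕ → ℕ → Bool) (n : ℕ) : Bool :=
  if n.unpair.1 < k then Y n.unpair.1 n.unpair.2 else false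

theorem tr_joinBelow {k i : ℕ} (hi : i < k) (Y : ℕ → ℕ → Bool) : TR (Y i) (joinBelow k Y) := by
  rw [tr_iff_ci]
  refine (ci_orc_comp (TR.refl (joinBelow k Y)) (CI.npair (CI.const i)
    (CI.of_computable Computable.id))).congr fun n => ?_
  unfold joinBelow
  simp only [Nat.unpair_pair, if_pos hi]
  rfl

theorem joinBelow_tr {k : ℕ} {Y : ℕ → ℕ → Bool} {c : ℕ → Bool} (h : ∀ i < k, TR (Y i) c) :
    TR (joinBelow k Y) c := by
  induction k with
  | zero =>
    rw [tr_iff_ci]
    refine (CI.const (O := {orc c}) (α := ℕ) 0).congr fun n => ?_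
    unfold joinBelow
    rw [if_neg (Nat.not_lt_zero _)]
    rfl
  | succ k ih =>
    have h1 := ih fun i hi => h i (Nat.lt_succ_of_lt hi)
    rw [tr_iff_ci]
    have h2 : CI {orc c} (fun n : ℕ => (Y k n.unpair.2).toNat) :=
      ci_orc_comp (h k (Nat.lt_succ_self k)) (CI.of_computable
        (Computable.snd.comp Computable.unpair))
    refine (CI.ite (DI.eq (CI.of_computable (Computable.fst.comp Computable.unpair))
      (CI.const k)) h2 (tr_iff_ci.1 h1)).congr fun n => ?_
    unfold joinBelow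
    by_cases hn : n.unpair.1 = k
    · rw [if_pos hn, if_pos (by omega), hn]
    · rw [if_neg hn]
      by_cases hn' : n.unpair.1 < k
      · rw [if_pos hn', if_pos (by omega)]
      · rw [if_neg hn', if_neg (by omega)]

theorem measurable_joinBelow (k : ℕ) {F : ℕ → (ℕ → Bool) → (ℕ → Bool)}
    (hF : ∀ i, Measurable (F i)) : Measurable fun A => joinBelow k fun i => F i A := by
  rw [measurable_pi_iff]
  intro n
  unfold joinBelow
  by_cases hn : n.unpair.1 < k
  · simp only [if_pos hn]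
    exact (measurable_pi_apply _).comp (hF _)
  · simp only [if_neg hn]
    exact measurable_const

variable {φ : (ℕ → Bool) → (ℕ → Bool)} {n : ℕ}

theorem eqv_jmp {A B : ℕ → Bool} (h : Eqv A B) (k : ℕ) : Eqv (jmp k A) (jmp k B) :=
  ⟨jmp_mono h.1 k, jmp_mono h.2 k⟩

/-! ### a function with `φ (a^(M+1)) ≤ a^(M)` is constant on a cone -/

theorem bounded_of_regr {M : ℕ} (hinv : ∀ A B, Eqv A B → TR (φ A) (φ B)) {C : ℕ → Bool}
    (hC : ∀ a, TR C a → TR (φ (jmp (M + 1) a)) (jmp M a)) :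
    ∃ Z B, ∀ c, TR B c → TR (φ c) Z := by
  refine ⟨jmp M C, jmp (M + 1) C, fun c hc => ?_⟩
  obtain ⟨G, H, hG, hH, eG, eH, h⟩ := fin_pair C (le_refl M) c hc
  have key : ∀ K : ℕ → Bool, Gen (jmp M C) K → Eqv (jmp (M + 1) (bjoin C K)) c →
      TR (φ c) (bjoin (jmp M C) K) := by
    intro K hK eK
    have h1 : TR (φ c) (jmp M (bjoin C K)) :=
      (hinv _ _ eK.symm).trans (hC _ (tr_bjoin_left _ _))
    refine h1.trans ?_
    cases M with
    | zero => exact TR.refl _
    | succ M => exact jmp_bjoin (hK.mono (jmp_tr_jmp C (by omega)))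
  exact h _ (key G hG eG) (key H hH eH)

theorem const_of_join (hS : ∀ i, Sig n {A | φ A i = true}) (hφ : Measurable φ)
    (hinv : ∀ A B, Eqv A B → TR (φ A) (φ B)) {j : ℕ} {C : ℕ → Bool}
    (hC : ∀ a, TR C a → TR (φ (jmp j a)) (joinBelow j fun i => φ (jmp i a))) :
    ConstCone φ := by
  have h1 : ∀ k, j ≤ k → ∀ a, TR C a → TR (φ (jmp k a)) (joinBelow j fun i => φ (jmp i a)) := by
    intro k hk
    induction k, hk using Nat.le_induction with
    | base => exact hC
    | succ k hk ih =>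
      intro a ha
      have h2 := ih (jump a) (ha.trans (tr_jump a))
      have h3 : ∀ i, jmp i (jump a) = jmp (i + 1) a := fun i => (jmp_add i 1 a).symm
      rw [h3] at h2
      refine h2.trans (joinBelow_tr fun i hi => ?_)
      rw [h3]
      rcases Nat.lt_or_ge (i + 1) j with h4 | h4
      · exact tr_joinBelow h4 fun i => φ (jmp i a)
      · have h5 : i + 1 = j := by omega
        rw [h5]
        exact hC a ha
  obtain ⟨p, hp⟩ := phi_le hS
  obtain ⟨Z, B, hZ⟩ := bounded_of_regr (M := j + n) hinv (C := bjoin C p) (φ := φ) (by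
    intro a ha
    have hCa : TR C a := (tr_bjoin_left C p).trans ha
    have hpa : TR p a := (tr_bjoin_right C p).trans ha
    refine (h1 (j + n + 1) (by omega) a hCa).trans (joinBelow_tr fun i hi => ?_)
    refine (hp (jmp i a) (hpa.trans (tr_jmp a i))).trans ?_
    rw [← jmp_add]
    exact jmp_tr_jmp a (by omega))
  exact const_of_bounded hφ hinv ⟨B, hZ⟩

/-- the measurability of a function with measurable bits -/
theorem measurable_of_sig (hS : ∀ i, Sig n {A | φ A i = true}) : Measurable φ :=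
  measurable_pi_iff.2 fun i => measurable_to_bool (by
    have h1 := sig_measurable n _ (hS i)
    exact h1)

/-- no value is computable from a later one or from the join of the previous ones -/
def Wild (φ : (ℕ → Bool) → (ℕ → Bool)) : Prop :=
  ∃ C, ∀ A, TR C A → (∀ i j, i < j → ¬ TR (φ (jmp i A)) (φ (jmp j A))) ∧
    ∀ j, ¬ TR (φ (jmp j A)) (joinBelow j fun i => φ (jmp i A))

theorem fin_trichotomy (hS : ∀ i, Sig n {A | φ A i = true})
    (hinv : ∀ A B, Eqv A B → TR (φ A) (φ B)) (h1 : ¬ ConstCone φ) (h2 : ¬ AboveId φ) :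
    Wild φ := by
  have hφ := measurable_of_sig hS
  have hup : ∀ k, ∃ B, ∀ A, TR B A → ¬ TR (φ A) (φ (jmp (k + 1) A)) := by
    intro k
    have hm : MeasurableSet {A | TR (φ A) (φ (jmp (k + 1) A))} :=
      measurable_TR_comp hφ (hφ.comp (measurable_jmp (k + 1)))
    rcases cone_dichotomy hm (fun A B hAB hBA hA =>
      (hinv B A ⟨hBA, hAB⟩).trans (TR.trans hA (hinv _ _ (eqv_jmp ⟨hAB, hBA⟩ _)))) with
      ⟨C, hC⟩ | h
    · exfalso
      rcases jump_theorem hS hinv (m := k + 1) (by omega) hC with h | ⟨C', D, h⟩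
      · exact h2 h
      · rcases cone_below hφ hinv D with h3 | ⟨B, hB⟩
        · exact h1 (const_of_bounded hφ hinv h3)
        · obtain ⟨G, -, hG⟩ := exists_of_residual (h (bjoin B C') (tr_bjoin_right _ _)).2 []
          exact hB (bjoin (bjoin B C') G) ((tr_bjoin_left _ _).trans (tr_bjoin_left _ _)) (hG 0)
    · exact h
  have hdown : ∀ j, ∃ B, ∀ A, TR B A →
      ¬ TR (φ (jmp j A)) (joinBelow j fun i => φ (jmp i A)) := by
    intro j
    have hm : MeasurableSet {A | TR (φ (jmp j A)) (joinBelow j fun i => φ (jmp i A))} :=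
      measurable_TR_comp (hφ.comp (measurable_jmp j))
        (measurable_joinBelow j fun i => hφ.comp (measurable_jmp i))
    rcases cone_dichotomy hm (fun A B hAB hBA hA => by
      refine (hinv _ _ (eqv_jmp ⟨hBA, hAB⟩ j)).trans (TR.trans hA (joinBelow_tr fun i hi => ?_))
      exact (hinv _ _ (eqv_jmp ⟨hAB, hBA⟩ i)).trans
        (tr_joinBelow hi fun i => φ (jmp i B))) with ⟨C, hC⟩ | h
    · exact absurd (const_of_join hS hφ hinv hC) h1
    · exact h
  choose U hU using hup
  choose V hV using hdown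
  refine ⟨bjoin (cjoin U) (cjoin V), fun A hA => ⟨fun i j hij h => ?_, fun j => ?_⟩⟩
  · obtain ⟨k, rfl⟩ : ∃ k, j = (k + 1) + i := ⟨j - i - 1, by omega⟩
    rw [jmp_add] at h
    refine hU k (jmp i A) ?_ h
    exact (((tr_cjoin U k).trans (tr_bjoin_left _ _)).trans hA).trans (tr_jmp A i)
  · exact hV j A (((tr_cjoin V j).trans (tr_bjoin_right _ _)).trans hA)

theorem not_const_above : ¬ (ConstCone φ ∧ AboveId φ) := by
  rintro ⟨⟨C, D, h1⟩, C', h2⟩
  obtain ⟨A, hA⟩ := exists_not_below D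
  refine hA ?_
  have hC : TR C (bjoin (bjoin C C') A) := (tr_bjoin_left C C').trans (tr_bjoin_left _ _)
  have hC' : TR C' (bjoin (bjoin C C') A) := (tr_bjoin_right C C').trans (tr_bjoin_left _ _)
  exact ((tr_bjoin_right _ _).trans (h2 _ hC')).trans (h1 _ hC).1

theorem not_const_wild : ¬ (ConstCone φ ∧ Wild φ) := by
  rintro ⟨⟨C, D, h1⟩, C', h2⟩
  obtain ⟨A, hA⟩ : ∃ A, A = bjoin C C' := ⟨_, rfl⟩
  have hC : TR C A := by rw [hA]; exact tr_bjoin_left _ _
  have hC' : TR C' A := by rw [hA]; exact tr_bjoin_right _ _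
  exact (h2 A hC').1 0 1 Nat.zero_lt_one
    ((h1 _ (hC.trans (tr_jmp A 0))).1.trans (h1 _ (hC.trans (tr_jmp A 1))).2)

theorem not_above_wild (hS : ∀ i, Sig n {A | φ A i = true}) : ¬ (AboveId φ ∧ Wild φ) := by
  rintro ⟨⟨C, h1⟩, C', h2⟩
  obtain ⟨p, hp⟩ := phi_le hS
  obtain ⟨A, hA⟩ : ∃ A, A = bjoin (bjoin C C') p := ⟨_, rfl⟩
  have hC : TR C A := by rw [hA]; exact (tr_bjoin_left _ _).trans (tr_bjoin_left _ _)
  have hC' : TR C' A := by rw [hA]; exact (tr_bjoin_right _ _).trans (tr_bjoin_left _ _)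
  have hpA : TR p A := by rw [hA]; exact tr_bjoin_right _ _
  exact (h2 A hC').1 0 (n + 1) (Nat.succ_pos n)
    ((hp A hpA).trans (h1 _ (hC.trans (tr_jmp A (n + 1)))))

/-- five degrees, if `φ` is not constant on a cone -/
theorem fin_five (hS : ∀ i, Sig n {A | φ A i = true})
    (hinv : ∀ A B, Eqv A B → TR (φ A) (φ B)) (h1 : ¬ ConstCone φ) :
    ∀ M, n + 2 ≤ M → ∀ B : ℕ → Bool, ∃ C' : ℕ → Bool, ∀ c, TR C' c →
      ∃ a : ℕ → ℕ → Bool, (∀ j, TR B (a j) ∧ Eqv (jmp (M + 1) (a j)) c) ∧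
        Eqv c (join5 fun j => φ (a j)) := by
  rcases fin_dichotomy hS hinv with ⟨D, hD⟩ | h
  · exfalso
    rcases cone_eqv (measurable_of_sig hS) hinv D with ⟨B, hB⟩ | ⟨B, hB⟩
    · exact h1 ⟨B, D, hB⟩
    · obtain ⟨A, hA1, hA2⟩ := hD B
      exact hB A hA1 (by rw [hA2]; exact Eqv.refl _)
  · exact h

end Pool.Agent.MCmp
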