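import Pool.Agent.Lib.MCmp.PBlk
import Pool.Agent.Lib.MJump.JEx
import Pool.Agent.Lib.MJump.FamSig

/-!
# Minimal pairs over `Z` on complementary branches of a system of blocks
-/

set_option autoImplicit false

namespace Pool.Agent.MCmp

open Pool.Agent.GammaZero Pool.Agent.Mart Pool.Agent.MGen Encodable

/-- program `e` with oracle `Z ⊕ σ` gives the value `v` on input `k` in fewer than `|σ|` steps -/
def VV (Z : ℕ → Bool) (e : ℕ) (σ : List Bool) (k v : ℕ) : Prop :=
  U (bjoin Z (ext σ)) e k σ.length v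

theorem res_agree {x y : ℕ → Bool} {e k s : ℕ} (h : ∀ j < s, x j = y j) :
    res x e k s = res y e k s := by
  have h1 : pre x s.unpair.1 = pre y s.unpair.1 := by
    rw [pre_eq_iff]
    exact fun j hj => h j (lt_of_lt_of_le hj (Nat.unpair_left_le s))
  unfold res
  rw [h1]

theorem U_agree {x y : ℕ → Bool} {e k t v : ℕ} (h : ∀ j < t, x j = y j) (hU : U x e k t v) :
    U y e k t v := by
  obtain ⟨s, hs, h1, h2⟩ := hU
  refine ⟨s, hs, ?_, fun s' hs' => ?_⟩
  · rw [← res_agree (x := x) fun j hj => h j (hj.trans hs)]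
    exact h1
  · rw [← res_agree (x := x) fun j hj => h j (hj.trans (hs'.trans hs))]
    exact h2 s' hs'

theorem bjoin_agree {Z G H : ℕ → Bool} {m : ℕ} (h : ∀ j < m, G j = H j) :
    ∀ j < m, bjoin Z G j = bjoin Z H j := by
  intro j hj
  unfold bjoin
  split_ifs
  · rfl
  · exact h (j / 2) (lt_of_le_of_lt (Nat.div_le_self j 2) hj)

theorem ext_agree {σ : List Bool} {G : ℕ → Bool} (h : Ext σ G) :
    ∀ j < σ.length, ext σ j = G j := by
  intro j hj
  have h1 := (Ext_iff σ G).1 h j hj
  unfold Mart.ext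
  rw [h1]
  rfl

theorem U_of_VV {Z G : ℕ → Bool} {σ : List Bool} {e k v : ℕ} (hG : Ext σ G)
    (h : VV Z e σ k v) : U (bjoin Z G) e k σ.length v :=
  U_agree (bjoin_agree (ext_agree hG)) h

theorem VV_of_U {Z G : ℕ → Bool} {σ : List Bool} {e k t v : ℕ} (hG : Ext σ G)
    (ht : t ≤ σ.length) (h : U (bjoin Z G) e k t v) : VV Z e σ k v :=
  U_agree (fun j hj => (bjoin_agree (ext_agree hG) j hj).symm) (h.mono ht)

theorem VV.mono {Z : ℕ → Bool} {σ τ : List Bool} {e k v : ℕ} (h : VV Z e σ k v) (hσ : σ <+: τ) :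
    VV Z e τ k v :=
  VV_of_U (Ext_ext τ) hσ.length_le (U_of_VV (Ext_mono hσ (Ext_ext τ)) h)

/-- `σ` and `τ` force different values -/
def Sp (Z : ℕ → Bool) (e d : ℕ) (σ τ : List Bool) : Prop :=
  ∃ k < σ.length, ∃ v < 2, VV Z e σ k v ∧ VV Z d τ k (1 - v)

/-- `σ` and `τ` force different values, or no extensions do -/
def MP (Z : ℕ → Bool) (e d : ℕ) (σ τ : List Bool) : Prop :=
  Sp Z e d σ τ ∨ ∀ σ' τ', σ <+: σ' → τ <+: τ' → ¬ Sp Z e d σ' τ'

theorem Sp.mono {Z : ℕ → Bool} {e d : ℕ} {σ σ' τ τ' : List Bool} (h : Sp Z e d σ τ)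
    (hσ : σ <+: σ') (hτ : τ <+: τ') : Sp Z e d σ' τ' := by
  obtain ⟨k, hk, v, hv, h1, h2⟩ := h
  exact ⟨k, lt_of_lt_of_le hk hσ.length_le, v, hv, h1.mono hσ, h2.mono hτ⟩

theorem pfam_MP (Z : ℕ → Bool) :
    PFam fun i σ τ => MP Z i.unpair.1 i.unpair.2 σ τ where
  mono i σ σ' τ τ' hσ hτ h := by
    rcases h with h | h
    · exact Or.inl (h.mono hσ hτ)
    · exact Or.inr fun σ'' τ'' h1 h2 => h σ'' τ'' (hσ.trans h1) (hτ.trans h2)
  dense i σ τ := by
    by_cases h : ∃ σ' τ', σ <+: σ' ∧ τ <+: τ' ∧ Sp Z i.unpair.1 i.unpair.2 σ' τ'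
    · obtain ⟨σ', τ', h1, h2, h3⟩ := h
      exact ⟨σ', τ', h1, h2, Or.inl h3⟩
    · refine ⟨σ, τ, List.prefix_rfl, List.prefix_rfl, Or.inr fun σ' τ' h1 h2 h3 => h ?_⟩
      exact ⟨σ', τ', h1, h2, h3⟩

/-! ### decidability -/

private theorem mp_ext_comp : Computable (fun q : List Bool × ℕ => (ext q.1 q.2).toNat) := by
  have h1 : Computable (fun q : List Bool × ℕ => (q.1[q.2]?).getD false) :=
    Computable.option_getD (Computable.list_getElem?.comp Computable.fst Computable.snd)
      (Computable.const false)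
  have h2 : Computable Bool.toNat := (Primrec.dom_bool Bool.toNat).to_comp
  exact h2.comp h1

private theorem mp_fam_bjoin (c : ℕ → Bool) :
    CI {orc c} (fun q : List Bool × ℕ => (bjoin c (ext q.1) q.2).toNat) := by
  have hsnd : CI {orc c} (fun q : List Bool × ℕ => q.2) := CI.of_computable Computable.snd
  have hdiv : Computable (fun q : List Bool × ℕ => q.2 / 2) :=
    (Primrec.nat_div.comp Primrec.snd (Primrec.const 2)).to_comp
  refine (CI.ite (DI.eq (CI.mod hsnd (CI.const 2)) (CI.const 0))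
    (ci_orc_comp (TR.refl c) (CI.div hsnd (CI.const 2)))
    (CI.of_computable (mp_ext_comp.comp (Computable.fst.pair hdiv)))).congr fun q => ?_
  unfold bjoin
  split_ifs <;> rfl

/-- results with oracle `Z ⊕ σ` are computable in `Z` -/
theorem ci_resS (Z : ℕ → Bool) {α : Type} [Primcodable α] {e k s : α → ℕ} {σ : α → List Bool}
    (he : Computable e) (hk : Computable k) (hs : Computable s) (hσ : Computable σ) :
    CI {orc Z} (fun a => res (bjoin Z (ext (σ a))) (e a) (k a) (s a)) := by
  have h1 : CI {orc Z} (fun a : α => encode (pre (bjoin Z (ext (σ a))) (s a).unpair.1)) :=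
    (fam_pre (F := fun ρ => bjoin Z (ext ρ)) (mp_fam_bjoin Z)).comp_computable
      (g := fun a : α => (σ a, (s a).unpair.1))
      (hσ.pair (Computable.fst.comp (Computable.unpair.comp hs)))
  exact CI.computable_comp evN_computable (CI.npair (CI.npair (CI.of_computable
    (Computable.snd.comp (Computable.unpair.comp hs))) (CI.of_computable he))
    (CI.npair h1 (CI.of_computable hk)))

theorem di_VV (Z : ℕ → Bool) {α : Type} [Primcodable α] {e k v : α → ℕ} {σ : α → List Bool}
    (he : Computable e) (hk : Computable k) (hv : Computable v) (hσ : Computable σ) :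
    DI {orc Z} (fun a => VV Z (e a) (σ a) (k a) (v a)) := by
  have h1 : DI {orc Z} (fun q : (α × ℕ) × ℕ =>
      res (bjoin Z (ext (σ q.1.1))) (e q.1.1) (k q.1.1) q.2 = 0) :=
    DI.eq (ci_resS Z (he.comp (Computable.fst.comp Computable.fst))
      (hk.comp (Computable.fst.comp Computable.fst)) Computable.snd
      (hσ.comp (Computable.fst.comp Computable.fst))) (CI.const 0)
  have h2 : DI {orc Z} (fun q : α × ℕ => ∀ s' < q.2,
      res (bjoin Z (ext (σ q.1))) (e q.1) (k q.1) s' = 0) :=
    DI.ball h1 (CI.of_computable Computable.snd)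
  have h3 : DI {orc Z} (fun q : α × ℕ =>
      res (bjoin Z (ext (σ q.1))) (e q.1) (k q.1) q.2 = v q.1 + 1) :=
    DI.eq (ci_resS Z (he.comp Computable.fst) (hk.comp Computable.fst) Computable.snd
      (hσ.comp Computable.fst)) (CI.add (CI.of_computable (hv.comp Computable.fst)) (CI.const 1))
  exact DI.bex (h3.and h2) (CI.of_computable (Computable.list_length.comp hσ))

theorem di_Sp (Z : ℕ → Bool) {α : Type} [Primcodable α] {e d : α → ℕ} {σ τ : α → List Bool}
    (he : Computable e) (hd : Computable d) (hσ : Computable σ) (hτ : Computable τ) :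
    DI {orc Z} (fun a => Sp Z (e a) (d a) (σ a) (τ a)) := by
  have c1 : Computable fun r : (α × ℕ) × ℕ => r.1.1 := Computable.fst.comp Computable.fst
  have c2 : Computable fun r : (α × ℕ) × ℕ => r.1.2 := Computable.snd.comp Computable.fst
  have c3 : Computable fun r : (α × ℕ) × ℕ => 1 - r.2 :=
    Primrec.nat_sub.to_comp.comp (Computable.const 1) Computable.snd
  have h1 : DI {orc Z} (fun r : (α × ℕ) × ℕ => VV Z (e r.1.1) (σ r.1.1) r.1.2 r.2 ∧
      VV Z (d r.1.1) (τ r.1.1) r.1.2 (1 - r.2)) :=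
    (di_VV Z (he.comp c1) c2 Computable.snd (hσ.comp c1)).and
      (di_VV Z (hd.comp c1) c2 c3 (hτ.comp c1))
  have h2 : DI {orc Z} (fun r : α × ℕ => ∃ v < 2, VV Z (e r.1) (σ r.1) r.2 v ∧
      VV Z (d r.1) (τ r.1) r.2 (1 - v)) := DI.bex h1 (CI.const 2)
  exact DI.bex h2 (CI.of_computable (Computable.list_length.comp hσ))

theorem di_MP (Z : ℕ → Bool) :
    DI {orc (jump Z)} (fun q : ℕ × List Bool × List Bool =>
      MP Z q.1.unpair.1 q.1.unpair.2 q.2.1 q.2.2) := by
  have c1 : Computable fun q : ℕ × List Bool × List Bool => q.1.unpair.1 :=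
    Computable.fst.comp (Computable.unpair.comp Computable.fst)
  have c2 : Computable fun q : ℕ × List Bool × List Bool => q.1.unpair.2 :=
    Computable.snd.comp (Computable.unpair.comp Computable.fst)
  have c3 : Computable fun q : ℕ × List Bool × List Bool => q.2.1 :=
    Computable.fst.comp Computable.snd
  have c4 : Computable fun q : ℕ × List Bool × List Bool => q.2.2 :=
    Computable.snd.comp Computable.snd
  have c5 : Computable fun r : (ℕ × List Bool × List Bool) × ℕ => r.1.2.1 ++ dl r.2.unpair.1 :=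
    Computable.list_append.comp (c3.comp Computable.fst)
      (dl_computable.comp (Computable.fst.comp (Computable.unpair.comp Computable.snd)))
  have c6 : Computable fun r : (ℕ × List Bool × List Bool) × ℕ => r.1.2.2 ++ dl r.2.unpair.2 :=
    Computable.list_append.comp (c4.comp Computable.fst)
      (dl_computable.comp (Computable.snd.comp (Computable.unpair.comp Computable.snd)))
  have h1 : DI {orc Z} (fun r : (ℕ × List Bool × List Bool) × ℕ =>
      ¬ Sp Z r.1.1.unpair.1 r.1.1.unpair.2 (r.1.2.1 ++ dl r.2.unpair.1)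
        (r.1.2.2 ++ dl r.2.unpair.2)) :=
    DI.not (di_Sp Z (c1.comp Computable.fst) (c2.comp Computable.fst) c5 c6)
  refine ((di_tr (di_Sp Z c1 c2 c3 c4) (tr_jump Z)).or (di_forall h1)).of_iff fun q => ?_
  unfold MP
  refine or_congr Iff.rfl ⟨fun h s => h _ _ (List.prefix_append _ _) (List.prefix_append _ _),
    fun h σ' τ' h1 h2 => ?_⟩
  obtain ⟨r, rfl⟩ := h1
  obtain ⟨r', rfl⟩ := h2
  have h3 := h (Nat.pair (encode r) (encode r'))
  simp only [Nat.unpair_pair, dl_encode] at h3
  exact h3

/-! ### the minimal pair lemma -/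

/-- if the pair of initial segments is in the set of the pair of indices, a common real is
computable in `Z` -/
theorem min_pair {Z G H x : ℕ → Bool} {e d m m' : ℕ} (hM : MP Z e d (pre G m) (pre H m'))
    (he : Idx (bjoin Z G) e x) (hd : Idx (bjoin Z H) d x) : TR x Z := by
  have hval : ∀ {K : ℕ → Bool} {j : ℕ}, Idx (bjoin Z K) j x → ∀ {σ : List Bool} {k v : ℕ},
      Ext σ K → VV Z j σ k v → v = (x k).toNat := by
    intro K j hj σ k v hσ hv
    obtain ⟨t, ht⟩ := hj k
    exact (U_of_VV hσ hv).unique ht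
  rcases hM with hM | hM
  · exfalso
    obtain ⟨k, -, v, hv, h1, h2⟩ := hM
    have e1 := hval he (Ext_pre G m) h1
    have e2 := hval hd (Ext_pre H m') h2
    omega
  · -- search for an extension of `pre G m` which gives a value
    let P : ℕ × ℕ → Prop := fun q => q.2.unpair.1 < 2 ∧
      VV Z e (pre G m ++ dl q.2.unpair.2) q.1 q.2.unpair.1
    have hP : DI {orc Z} P := by
      have c1 : Computable fun q : ℕ × ℕ => q.2.unpair.1 :=
        Computable.fst.comp (Computable.unpair.comp Computable.snd)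
      have c2 : Computable fun q : ℕ × ℕ => pre G m ++ dl q.2.unpair.2 :=
        Computable.list_append.comp (Computable.const _)
          (dl_computable.comp (Computable.snd.comp (Computable.unpair.comp Computable.snd)))
      exact (DI.lt (CI.of_computable c1) (CI.const 2)).and
        (di_VV Z (Computable.const e) Computable.fst c1 c2)
    have hex : ∀ k, ∃ n, P (k, n) := by
      intro k
      obtain ⟨t, ht⟩ := he k
      obtain ⟨r, hr⟩ : pre G m <+: pre G (max m t) := pre_prefix G (le_max_left m t)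
      refine ⟨Nat.pair (x k).toNat (encode r), ?_⟩
      simp only [P, Nat.unpair_pair, dl_encode]
      refine ⟨Bool.toNat_lt _, ?_⟩
      rw [hr]
      refine VV_of_U (Ext_pre G _) ?_ ht
      rw [pre_length]
      exact le_max_right _ _
    obtain ⟨c, hc, hcP⟩ := choice hP hex
    rw [tr_iff_ci]
    refine (CI.left hc).congr fun k => ?_
    obtain ⟨h1, h2⟩ := hcP k
    simp only at h1 h2
    by_contra hne
    obtain ⟨t, ht⟩ := hd k
    let σ' : List Bool := pre G m ++ dl (c k).unpair.2 ++ List.replicate (k + 1) false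
    let τ' : List Bool := pre H (max m' t)
    have hσ' : pre G m <+: σ' := (List.prefix_append _ _).trans (List.prefix_append _ _)
    have hτ' : pre H m' <+: τ' := pre_prefix H (le_max_left m' t)
    refine hM σ' τ' hσ' hτ' ⟨k, ?_, (c k).unpair.1, h1, h2.mono (List.prefix_append _ _), ?_⟩
    · simp only [σ', List.length_append, List.length_replicate]
      omega
    · have h3 : 1 - (c k).unpair.1 = (x k).toNat := by
        have := Bool.toNat_lt (x k)
        omega
      rw [h3]
      refine VV_of_U (Ext_pre H _) ?_ ht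
      rw [pre_length]
      exact le_max_right _ _

/-- systems of blocks whose complementary branches form minimal pairs over `Z` -/
theorem min_pair_blocks {X Z : ℕ → Bool} (hZ : TR (jump Z) X) {D : ℕ → List Bool → Prop}
    (hD : DFam D) (hDd : DI {orc X} (fun q : ℕ × List Bool => D q.1 q.2)) :
    ∃ w : ℕ → Bool → List Bool, (∀ i, (w i true).length = (w i false).length) ∧
      (∀ i, 0 < (w i false).length) ∧ (∀ i, w i false ≠ w i true) ∧
      CI {orc X} (fun q : ℕ × Bool => encode (w q.1 q.2)) ∧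
      (∀ (e : ℕ → Bool) (i : ℕ), D i (pre (brn w e) (bpos w (i + 1)))) ∧
      ∀ e x : ℕ → Bool, TR x (bjoin Z (brn w e)) → TR x (bjoin Z (brn w (flip e))) →
        TR x Z := by
  let E : ℕ → List Bool → List Bool → Prop := fun i σ τ =>
    (D i σ ∧ D i τ) ∧ MP Z i.unpair.1 i.unpair.2 σ τ ∧ MP Z i.unpair.1 i.unpair.2 τ σ
  have hE : PFam E := ((PFam.of_left hD).and (PFam.of_left hD).swap).and
    ((pfam_MP Z).and (pfam_MP Z).swap)
  have c2 : Computable fun q : ℕ × List Bool × List Bool => (q.1, q.2.1) :=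
    Computable.fst.pair (Computable.fst.comp Computable.snd)
  have c3 : Computable fun q : ℕ × List Bool × List Bool => (q.1, q.2.2) :=
    Computable.fst.pair (Computable.snd.comp Computable.snd)
  have c4 : Computable fun q : ℕ × List Bool × List Bool => (q.1, q.2.2, q.2.1) :=
    Computable.fst.pair ((Computable.snd.comp Computable.snd).pair
      (Computable.fst.comp Computable.snd))
  have hMd := di_tr (di_MP Z) hZ
  have hEd : DI {orc X} (fun q : ℕ × List Bool × List Bool => E q.1 q.2.1 q.2.2) :=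
    ((hDd.comp_computable c2).and (hDd.comp_computable c3)).and
      (hMd.and (hMd.comp_computable c4))
  obtain ⟨w, hB, hw⟩ := pblocks_exist hE hEd
  have hsym : ∀ i σ τ, E i σ τ → E i τ σ := fun i σ τ h => ⟨⟨h.1.2, h.1.1⟩, h.2.2, h.2.1⟩
  refine ⟨w, hB.len, hB.pos, hB.ne, hw, fun e i => (hB.meet hsym e i).1.1,
    fun e x h1 h2 => ?_⟩
  obtain ⟨e1, he1⟩ := exists_idx h1
  obtain ⟨e2, he2⟩ := exists_idx h2
  have h3 := (hB.meet hsym e (Nat.pair e1 e2)).2.1
  simp only [Nat.unpair_pair] at h3
  exact min_pair h3 he1 he2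

end Pool.Agent.MCmp
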