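import Pool.Agent.Lib.MCmp.Bound

/-!
# Iterates of the operator of a family: inversion, minimal pairs, five reals
-/

set_option autoImplicit false

namespace Pool.Agent.MCmp

open Filter Set TopologicalSpace Pool.Agent.GammaZero Pool.Agent.Mart Pool.Agent.MGen Encodable

variable {φ h : (ℕ → Bool) → (ℕ → Bool)} {base : ℕ → BC}

/-- iterates of the operator -/
noncomputable def JI (base : ℕ → BC) (k : ℕ) (a : ℕ → Bool) : ℕ → Bool := (JJ base)^[k] a

theorem JI_zero (a : ℕ → Bool) : JI base 0 a = a := rfl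

theorem JI_succ (k : ℕ) (a : ℕ → Bool) : JI base (k + 1) a = JJ base (JI base k a) :=
  Function.iterate_succ_apply' _ _ _

theorem JI_add (k l : ℕ) (a : ℕ → Bool) : JI base (k + l) a = JI base k (JI base l a) :=
  Function.iterate_add_apply _ _ _ _

theorem JI_mono {A B : ℕ → Bool} (hAB : TR A B) (k : ℕ) : TR (JI base k A) (JI base k B) := by
  induction k with
  | zero => exact hAB
  | succ k ih => rw [JI_succ, JI_succ]; exact JJ_mono base ih

theorem JI_le (hb : IsBase φ h base) (a : ℕ → Bool) {k l : ℕ} (hkl : k ≤ l) :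
    TR (JI base k a) (JI base l a) := by
  induction l, hkl using Nat.le_induction with
  | base => exact TR.refl _
  | succ l _ ih => rw [JI_succ]; exact ih.trans (tr_JJ_self hb _)

theorem tr_JI (hb : IsBase φ h base) (a : ℕ → Bool) (k : ℕ) : TR a (JI base k a) :=
  JI_le hb a (Nat.zero_le k)

theorem measurable_JI (k : ℕ) : Measurable (JI base k) := by
  induction k with
  | zero => exact measurable_id
  | succ k ih =>
    have h1 : JI base (k + 1) = fun a => JJ base (JI base k a) := funext fun a => JI_succ k a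
    rw [h1]
    exact (measurable_JJ base).comp ih

/-- `s` decides the `i`-th set of the family over `b, J b, …, J^(k-1) b` -/
def DK (base : ℕ → BC) (b : ℕ → Bool) : ℕ → ℕ → List Bool → Prop
  | 0, _, _ => True
  | k + 1, i, s => DK base b k i s ∧ DD base (JI base k b) i s

theorem dfam_DK (base : ℕ → BC) (b : ℕ → Bool) (k : ℕ) : DFam (DK base b k) := by
  induction k with
  | zero => exact ⟨fun _ _ _ _ _ => trivial, fun _ ρ => ⟨ρ, List.prefix_rfl, trivial⟩⟩
  | succ k ih =>
    have hD := dfam_DD base (JI base k b)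
    constructor
    · intro i ρ τ h1 h2
      exact ⟨ih.mono i ρ τ h1 h2.1, hD.mono i ρ τ h1 h2.2⟩
    · intro i ρ
      obtain ⟨τ, h1, h2⟩ := ih.dense i ρ
      obtain ⟨τ', h3, h4⟩ := hD.dense i τ
      exact ⟨τ', h1.trans h3, ih.mono i _ _ h3 h2, h4⟩

theorem di_DK (hb : IsBase φ h base) (b : ℕ → Bool) (k : ℕ) :
    DI {orc (JI base k b)} (fun q : ℕ × List Bool => DK base b k q.1 q.2) := by
  induction k with
  | zero =>
    refine (DI.eq (CI.const (O := {orc (JI base 0 b)}) (α := ℕ × List Bool) 0)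
      (CI.const 0)).of_iff fun q => ?_
    exact ⟨fun _ => rfl, fun _ => trivial⟩
  | succ k ih =>
    have h1 := di_tr ih (JI_le hb b (Nat.le_succ k))
    have h2 := di_DD base (JI base k b)
    rw [← JI_succ] at h2
    exact h1.and h2

theorem good_of_DK {b G : ℕ → Bool} {k : ℕ} (hG : ∀ i, ∃ m, DK base b k i (pre G m)) {l : ℕ}
    (hl : l < k) : Good base (JI base l b) G := by
  intro n
  obtain ⟨m, hm⟩ := hG n
  have h1 : ∀ k, DK base b k n (pre G m) → ∀ l < k, DD base (JI base l b) n (pre G m) := by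
    intro k
    induction k with
    | zero => exact fun _ l hl => absurd hl (Nat.not_lt_zero l)
    | succ k ih =>
      intro h1 l hl
      rcases Nat.lt_or_ge l k with h2 | h2
      · exact ih h1.1 l h2
      · have h3 : l = k := by omega
        rw [h3]
        exact h1.2
  refine ⟨m, ?_⟩
  rcases h1 k hm l hl with h2 | ⟨j, -, h2⟩
  · exact Or.inl h2
  · exact Or.inr ⟨j, h2⟩

theorem JI_bjoin {b G : ℕ → Bool} {k : ℕ} (hG : ∀ l < k, Good base (JI base l b) G) :
    TR (JI base k (bjoin b G)) (bjoin (JI base k b) G) := by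
  induction k with
  | zero => exact TR.refl _
  | succ k ih =>
    rw [JI_succ, JI_succ]
    have h1 := ih fun l hl => hG l (Nat.lt_succ_of_lt hl)
    exact (JJ_mono base h1).trans (JJ_bjoin (hG k (Nat.lt_succ_self k)))

/-- two reals over `t` with the same value of the `(m+1)`-st iterate, a minimal pair over the value
of the `m`-th iterate at `t` -/
theorem op_pair_iter (hb : IsBase φ h base) (hj : ∀ a, TR (jump a) (JJ base a)) (t : ℕ → Bool)
    (m : ℕ) : ∀ c, TR (JI base (m + 1) t) c → ∃ G H : ℕ → Bool,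
      TR (JI base m (bjoin t G)) (bjoin (JI base m t) G) ∧
      TR (JI base m (bjoin t H)) (bjoin (JI base m t) H) ∧
      Eqv (JI base (m + 1) (bjoin t G)) c ∧ Eqv (JI base (m + 1) (bjoin t H)) c ∧
      ∀ x, TR x (bjoin (JI base m t) G) → TR x (bjoin (JI base m t) H) →
        TR x (JI base m t) := by
  have hZ : TR (jump (JI base m t)) (JI base (m + 1) t) := by
    rw [JI_succ]
    exact hj _
  obtain ⟨w, hlen, hpos, hne, hw, hdec, hmp⟩ :=
    min_pair_blocks hZ (dfam_DK base t (m + 1)) (di_DK hb t (m + 1))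
  intro c hc
  have hgood : ∀ (e : ℕ → Bool), ∀ l < m + 1, Good base (JI base l t) (brn w e) :=
    fun e l hl => good_of_DK (fun i => ⟨_, hdec e i⟩) hl
  have hE : ∀ e : ℕ → Bool, TR e c → TR c e →
      Eqv (JI base (m + 1) (bjoin t (brn w e))) c := by
    intro e h1 h2
    refine ⟨(JI_bjoin (hgood e)).trans (bjoin_tr hc (brn_tr (ci_tr hw hc) h1)), h2.trans ?_⟩
    exact tr_brn hlen hpos hne (ci_tr hw (JI_mono (tr_bjoin_left t (brn w e)) (m + 1)))
      ((tr_bjoin_right t (brn w e)).trans (tr_JI hb _ _))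
  exact ⟨brn w c, brn w (flip c), JI_bjoin fun l hl => hgood c l (by omega),
    JI_bjoin fun l hl => hgood (flip c) l (by omega), hE c (TR.refl c) (TR.refl c),
    hE (flip c) (flip_tr c) (tr_flip c), fun x h1 h2 => hmp c x h1 h2⟩

/-! ### five reals -/

private theorem f3_ext_comp : Computable (fun q : List Bool × ℕ => (ext q.1 q.2).toNat) := by
  have h1 : Computable (fun q : List Bool × ℕ => (q.1[q.2]?).getD false) :=
    Computable.option_getD (Computable.list_getElem?.comp Computable.fst Computable.snd)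
      (Computable.const false)
  have h2 : Computable Bool.toNat := (Primrec.dom_bool Bool.toNat).to_comp
  exact h2.comp h1

private theorem f3_ext_tr (σ : List Bool) (c : ℕ → Bool) : TR (ext σ) c := by
  rw [tr_iff_ci]
  exact CI.of_computable (f3_ext_comp.comp ((Computable.const σ).pair Computable.id))

private theorem f3_fam_bjoin (c : ℕ → Bool) :
    CI {orc c} (fun q : List Bool × ℕ => (bjoin c (ext q.1) q.2).toNat) := by
  have hsnd : CI {orc c} (fun q : List Bool × ℕ => q.2) := CI.of_computable Computable.snd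
  have hdiv : Computable (fun q : List Bool × ℕ => q.2 / 2) :=
    (Primrec.nat_div.comp Primrec.snd (Primrec.const 2)).to_comp
  refine (CI.ite (DI.eq (CI.mod hsnd (CI.const 2)) (CI.const 0))
    (ci_orc_comp (TR.refl c) (CI.div hsnd (CI.const 2)))
    (CI.of_computable (f3_ext_comp.comp (Computable.fst.pair hdiv)))).congr fun q => ?_
  unfold bjoin
  split_ifs <;> rfl

private theorem f3_bjoin_inj {c α β : ℕ → Bool} (h : bjoin c α = bjoin c β) : α = β := by
  rw [← rgt_bjoin c α, ← rgt_bjoin c β, h]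

/-- five reals with a given value of the `(m+1)`-st iterate whose values compute it -/
theorem five_reals3 (hb : IsBase φ h base) (hφ : Measurable φ)
    (hinv : ∀ A B, Eqv A B → TR (φ A) (φ B)) {b : ℕ → Bool} (hNC : NC (YN φ b)) (m : ℕ) :
    ∃ W : ℕ → Bool, ∀ c, TR W c → ∃ a : ℕ → ℕ → Bool,
      (∀ j, TR b (a j) ∧ Eqv (JI base (m + 1) (a j)) c) ∧ TR c (join5 fun j => φ (a j)) := by
  have hY := name_YN hφ b
  have hJ1 : ∀ a, TR (JJ base a) (JI base (m + 1) a) := fun a => by
    have := JI_le (base := base) hb a (k := 1) (l := m + 1) (by omega)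
    exact this
  obtain ⟨w, hB, hw⟩ := blocks_exist2 hY (di_tr (di_YN hb b) (hJ1 b)) hNC
    (dfam_DK base b (m + 1)) (di_DK hb b (m + 1))
  have hmeet : ∀ (e : ℕ → Bool) (i : ℕ), ∃ n, DK base b (m + 1) i (pre (brn w e) n) := by
    intro e i
    refine ⟨bpos w (i + 1), ?_⟩
    rw [pre_brn hB.len hB.pos]
    exact hB.dec i (stm w e i) (e i) (stm_length hB.len e i)
  have hgood : ∀ (e : ℕ → Bool), ∀ l < m + 1, Good base (JI base l b) (brn w e) :=
    fun e l hl => good_of_DK (hmeet e) hl
  have hgood0 : ∀ e : ℕ → Bool, Good base b (brn w e) := fun e => hgood e 0 (by omega)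
  have ht : ∀ (e : ℕ → Bool) (i : ℕ), ∃ n,
      YN φ b (pre (brn w e) n) i ((fun G => φ (bjoin b G)) (brn w e) i) :=
    fun e i => YN_truth hb (hgood0 e) i
  have hbr : ∀ {c : ℕ → Bool}, TR (JI base (m + 1) b) c → ∀ e : ℕ → Bool, TR e c →
      TR (JI base (m + 1) (bjoin b (brn w e))) c ∧
        TR e (JI base (m + 1) (bjoin b (brn w e))) := by
    intro c hc e he
    refine ⟨(JI_bjoin (hgood e)).trans (bjoin_tr hc (brn_tr (ci_tr hw hc) he)), ?_⟩
    exact tr_brn hB.len hB.pos (blk2_ne hY hB)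
      (ci_tr hw (JI_mono (tr_bjoin_left b (brn w e)) (m + 1)))
      ((tr_bjoin_right b (brn w e)).trans (tr_JI hb _ _))
  obtain ⟨ψ, hψ⟩ : ∃ ψ : (ℕ → Bool) → (ℕ → Bool), ψ = fun e => φ (bjoin b (brn w e)) :=
    ⟨_, rfl⟩
  have hψc : Continuous ψ := by
    rw [hψ]
    exact psi2_cont (f := fun G => φ (bjoin b G)) hY hB ht
  have hψi : Function.Injective ψ := by
    rw [hψ]
    exact psi2_inj (f := fun G => φ (bjoin b G)) hY hB ht
  choose L hL using unif_cont hψc
  obtain ⟨p1, hp1⟩ := exists_table (fun m =>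
    Nat.pair (L m) (ψ (ext (dl m.unpair.2)) m.unpair.1).toNat)
  refine ⟨bjoin (JI base (m + 1) b) p1, fun c hc => ?_⟩
  have hJc : TR (JI base (m + 1) b) c := (tr_bjoin_left _ _).trans hc
  have hp1c := ci_tr hp1 ((tr_bjoin_right (JI base (m + 1) b) p1).trans hc)
  have hwc := ci_tr hw hJc
  have hLc : CI {orc c} L := (CI.left hp1c).congr fun m => by simp only [Nat.unpair_pair]
  -- the base point
  have he0 : TR (bjoin c (ext [])) c := bjoin_tr (TR.refl c) (f3_ext_tr [] c)
  have hbr' := fun (e : ℕ → Bool) (he : TR e c) => hbr hJc e he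
  have hG0 := (hbr' _ he0).1
  obtain ⟨G₀, hG₀⟩ : ∃ G₀, G₀ = brn w (bjoin c (ext [])) := ⟨_, rfl⟩
  rw [← hG₀] at hG0
  have hG0' : TR (JJ base (bjoin b G₀)) c := (hJ1 _).trans hG0
  have hpatch : ∀ ρ : List Bool, TR (φ (bjoin b (patch ρ G₀))) (φ (bjoin b G₀)) := by
    intro ρ
    apply hinv
    exact ⟨bjoin_tr (tr_bjoin_left b G₀) ((patch_tr ρ G₀).trans (tr_bjoin_right b G₀)),
      bjoin_tr (tr_bjoin_left b (patch ρ G₀))
        ((tr_patch ρ G₀).trans (tr_bjoin_right b (patch ρ G₀)))⟩
  obtain ⟨I₀, hI₀, hI₀'⟩ := index2 hb hpatch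
  have hx : TR (φ (bjoin b G₀)) c := (tr_JJ_phi hb _).trans hG0'
  have hI₀c : CI {orc c} I₀ := ci_tr hI₀ hG0'
  -- the map ψ_c
  have hψσ : ∀ σ : List Bool, ψ (bjoin c (ext σ)) =
      φ (bjoin b (patch (stm w (bjoin c (ext σ)) (2 * σ.length)) G₀)) := by
    intro σ
    rw [hψ, hG₀]
    simp only []
    rw [← brn_patch hB.len hB.pos c σ]
  have hinj : Function.Injective (fun α : ℕ → Bool => ψ (bjoin c α)) :=
    fun α β h => f3_bjoin_inj (hψi h)
  have hL' : ∀ (n : ℕ) (α β : ℕ → Bool), (∀ k < L n, α k = β k) →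
      (fun α : ℕ → Bool => ψ (bjoin c α)) α n = (fun α : ℕ → Bool => ψ (bjoin c α)) β n := by
    intro n α β h
    refine hL n _ _ fun k hk => ?_
    unfold bjoin
    split_ifs
    · rfl
    · exact h (k / 2) (lt_of_le_of_lt (Nat.div_le_self k 2) hk)
  have hV : CI {orc c} (fun q : ℕ × ℕ =>
      ((fun α : ℕ → Bool => ψ (bjoin c α)) (ext (dl q.1)) q.2).toNat) := by
    have h1 : CI {orc c} (fun q : ℕ × ℕ => encode (pre (bjoin c (ext (dl q.1))) q.2)) :=
      (fam_pre (F := fun σ => bjoin c (ext σ)) (f3_fam_bjoin c)).comp_computable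
        (g := fun q : ℕ × ℕ => ((dl q.1, q.2) : List Bool × ℕ))
        ((dl_computable.comp Computable.fst).pair Computable.snd)
    have h2 : CI {orc c} (fun q : ℕ × ℕ => L q.2) := hLc.comp_computable Computable.snd
    have h3 : CI {orc c} (fun q : ℕ × ℕ =>
        encode (pre (bjoin c (ext (dl q.1))) (L q.2))) :=
      CI.app2 h1 (CI.of_computable Computable.fst) h2
    have h4 := CI.comp hp1c (CI.npair (CI.of_computable (O := {orc c})
      (Computable.snd (α := ℕ) (β := ℕ))) h3)
    refine (CI.right h4).congr fun q => ?_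
    simp only [Nat.unpair_pair, dl_encode]
    congr 1
    apply hL
    intro k hk
    show bjoin c (ext (dl q.1)) k = ((pre (bjoin c (ext (dl q.1))) (L q.2))[k]?).getD false
    rw [pre_getElem? _ _ k hk]
    rfl
  have hIc : CI {orc c} (fun a : ℕ =>
      I₀ (encode (stm w (bjoin c (ext (dl a))) (2 * (dl a).length)))) :=
    CI.comp hI₀c (ci_stm hwc)
  obtain ⟨α, hα, hz⟩ := eff_coding (ψ := fun α : ℕ → Bool => ψ (bjoin c α)) hinj
    (x := φ (bjoin b G₀)) (c := c) (L := L)
    (I := fun a : ℕ => I₀ (encode (stm w (bjoin c (ext (dl a))) (2 * (dl a).length))))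
    hL' (fun σ => by
      simp only [dl_encode, hψσ σ]
      exact hI₀' _) hV hLc hIc hx (TR.refl c)
  refine ⟨fun j => Nat.casesOn j (bjoin b G₀) (fun i => bjoin b (brn w (bjoin c (α i)))),
    ?_, ?_⟩
  · intro j
    rcases j with _ | i
    · have h5 := (hbr' _ he0).2
      rw [← hG₀] at h5
      exact ⟨tr_bjoin_left _ _, hG0, (tr_bjoin_left c (ext [])).trans h5⟩
    · have h6 : TR (bjoin c (α i)) c := bjoin_tr (TR.refl c) (hα i)
      exact ⟨tr_bjoin_left _ _, (hbr' _ h6).1, (tr_bjoin_left c (α i)).trans (hbr' _ h6).2⟩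
  · have h7 : (join5 fun j => φ ((fun j => Nat.casesOn j (bjoin b G₀)
        (fun i => bjoin b (brn w (bjoin c (α i)))) : ℕ → ℕ → Bool) j)) =
        WW (φ (bjoin b G₀)) (fun j => ψ (bjoin c (α j))) := by
      unfold WW
      congr 1
      funext j
      rcases j with _ | i
      · rfl
      · rw [hψ]
        rfl
    rw [h7]
    exact hz

end Pool.Agent.MCmp
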