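import Pool.Agent.Lib.MCmp.OpIter
import Pool.Agent.Lib.MCmp.FinTri

/-!
# The trichotomy for all Borel functions, along a fast Borel operator
-/

set_option autoImplicit false

namespace Pool.Agent.MCmp

open Filter Set TopologicalSpace Pool.Agent.GammaZero Pool.Agent.Mart Pool.Agent.MGen Encodable
open Pool.Agent.UDet

variable {φ h : (ℕ → Bool) → (ℕ → Bool)} {base : ℕ → BC}

theorem eqv_JI {A B : ℕ → Bool} (hAB : Eqv A B) (k : ℕ) : Eqv (JI base k A) (JI base k B) :=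
  ⟨JI_mono hAB.1 k, JI_mono hAB.2 k⟩

/-- values at iterates of the operator: none is computable from a later one or from the join of
the previous ones -/
def WildJ (base : ℕ → BC) (φ : (ℕ → Bool) → (ℕ → Bool)) : Prop :=
  ∃ C, ∀ A, TR C A → (∀ i j, i < j → ¬ TR (φ (JI base i A)) (φ (JI base j A))) ∧
    ∀ j, ¬ TR (φ (JI base j A)) (joinBelow j fun i => φ (JI base i A))

theorem bounded_of_regrJ (hb : IsBase φ h base) (hj : ∀ a, TR (jump a) (JJ base a)) {M : ℕ}
    (hinv : ∀ A B, Eqv A B → TR (φ A) (φ B)) {C : ℕ → Bool}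
    (hC : ∀ a, TR C a → TR (φ (JI base (M + 1) a)) (JI base M a)) :
    ∃ Z B, ∀ c, TR B c → TR (φ c) Z := by
  refine ⟨JI base M C, JI base (M + 1) C, fun c hc => ?_⟩
  obtain ⟨G, H, hG, hH, eG, eH, h⟩ := op_pair_iter hb hj C M c hc
  have key : ∀ K : ℕ → Bool, TR (JI base M (bjoin C K)) (bjoin (JI base M C) K) →
      Eqv (JI base (M + 1) (bjoin C K)) c → TR (φ c) (bjoin (JI base M C) K) := by
    intro K hK eK
    exact ((hinv _ _ eK.symm).trans (hC _ (tr_bjoin_left _ _))).trans hK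
  exact h _ (key G hG eG) (key H hH eH)

theorem const_of_joinJ (hb : IsBase φ h base) (hj : ∀ a, TR (jump a) (JJ base a))
    (hφ : Measurable φ) (hinv : ∀ A B, Eqv A B → TR (φ A) (φ B)) {j : ℕ} {C : ℕ → Bool}
    (hC : ∀ a, TR C a → TR (φ (JI base j a)) (joinBelow j fun i => φ (JI base i a))) :
    ConstCone φ := by
  have h1 : ∀ k, j ≤ k → ∀ a, TR C a →
      TR (φ (JI base k a)) (joinBelow j fun i => φ (JI base i a)) := by
    intro k hk
    induction k, hk using Nat.le_induction with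
    | base => exact hC
    | succ k hk ih =>
      intro a ha
      have h2 := ih (JJ base a) (ha.trans (tr_JJ_self hb a))
      have h3 : ∀ i, JI base i (JJ base a) = JI base (i + 1) a := fun i => (JI_add i 1 a).symm
      rw [h3] at h2
      refine h2.trans (joinBelow_tr fun i hi => ?_)
      rw [h3]
      rcases Nat.lt_or_ge (i + 1) j with h4 | h4
      · exact tr_joinBelow h4 fun i => φ (JI base i a)
      · have h5 : i + 1 = j := by omega
        rw [h5]
        exact hC a ha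
  obtain ⟨Z, B, hZ⟩ := bounded_of_regrJ (M := j) hb hj hinv (C := C) (by
    intro a ha
    refine (h1 (j + 1) (by omega) a ha).trans (joinBelow_tr fun i hi => ?_)
    refine (tr_JJ_phi hb (JI base i a)).trans ?_
    rw [← JI_succ]
    exact JI_le hb a (by omega))
  exact const_of_bounded hφ hinv ⟨B, hZ⟩

/-- five reals, if `φ` is not constant on a cone -/
theorem op_five (hb : IsBase φ h base) (hφ : Measurable φ)
    (hinv : ∀ A B, Eqv A B → TR (φ A) (φ B)) (h1 : ¬ ConstCone φ) (m : ℕ) (B : ℕ → Bool) :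
    ∃ W : ℕ → Bool, ∀ C, TR W C → ∃ a : ℕ → ℕ → Bool,
      (∀ j, TR B (a j) ∧ Eqv (JI base (m + 1) (a j)) C) ∧ Eqv C (join5 fun j => φ (a j)) := by
  by_cases hcase : ∃ z : ℕ → Bool, ∀ b, TR z b →
      ∃ d : ℕ → Bool, ∀ᶠ g in residual (ℕ → Bool), Eqv (φ (bjoin b g)) d
  · exfalso
    obtain ⟨z, hz⟩ := hcase
    obtain ⟨D, hD⟩ := const_of_generic hφ hinv hz
    rcases cone_eqv hφ hinv D with ⟨B, hB⟩ | ⟨B, hB⟩
    · exact h1 ⟨B, D, hB⟩
    · obtain ⟨A, hA1, hA2⟩ := hD B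
      exact hB A hA1 (by rw [hA2]; exact Eqv.refl _)
  · have hex : ∃ b, TR B b ∧
        ¬ ∃ d : ℕ → Bool, ∀ᶠ g in residual (ℕ → Bool), Eqv (φ (bjoin b g)) d := by
      by_contra hcon
      exact hcase ⟨B, fun b hb => by_contra fun h' => hcon ⟨b, hb, h'⟩⟩
    obtain ⟨b, hBb, hnc'⟩ := hex
    obtain ⟨W, hW⟩ := five_reals3 hb hφ hinv (nc_YN hφ hinv hnc') m
    refine ⟨W, fun C hC => ?_⟩
    obtain ⟨a, h1, h2⟩ := hW C hC
    refine ⟨a, fun j => ⟨hBb.trans (h1 j).1, (h1 j).2⟩, h2, ?_⟩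
    refine join5_tr fun j _ => ((tr_JJ_phi hb (a j)).trans ?_).trans (h1 j).2.1
    have := JI_le (base := base) hb (a j) (k := 1) (l := m + 1) (by omega)
    exact this

theorem op_trichotomy (hb : IsBase φ h base) (hj : ∀ a, TR (jump a) (JJ base a))
    (hφ : Measurable φ) (hinv : ∀ A B, Eqv A B → TR (φ A) (φ B)) (h1 : ¬ ConstCone φ)
    (h2 : ¬ AboveId φ) : WildJ base φ := by
  have hup : ∀ k, ∃ B, ∀ A, TR B A → ¬ TR (φ A) (φ (JI base (k + 1) A)) := by
    intro k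
    have hm : MeasurableSet {A | TR (φ A) (φ (JI base (k + 1) A))} :=
      measurable_TR_comp hφ (hφ.comp (measurable_JI (k + 1)))
    rcases cone_dichotomy hm (fun A B hAB hBA hA =>
      (hinv B A ⟨hBA, hAB⟩).trans (TR.trans hA (hinv _ _ (eqv_JI ⟨hAB, hBA⟩ _)))) with
      ⟨C, hC⟩ | h
    · exfalso
      apply h2
      obtain ⟨W, hW⟩ := op_five hb hφ hinv h1 k C
      refine ⟨W, fun c hc => ?_⟩
      obtain ⟨a, ha1, ha2⟩ := hW c hc
      refine ha2.1.trans (join5_tr fun j _ => ?_)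
      exact (hC _ (ha1 j).1).trans (hinv _ _ (ha1 j).2)
    · exact h
  have hdown : ∀ j, ∃ B, ∀ A, TR B A →
      ¬ TR (φ (JI base j A)) (joinBelow j fun i => φ (JI base i A)) := by
    intro j
    have hm : MeasurableSet {A | TR (φ (JI base j A)) (joinBelow j fun i => φ (JI base i A))} :=
      measurable_TR_comp (hφ.comp (measurable_JI j))
        (measurable_joinBelow j fun i => hφ.comp (measurable_JI i))
    rcases cone_dichotomy hm (fun A B hAB hBA hA => by
      refine (hinv _ _ (eqv_JI ⟨hBA, hAB⟩ j)).trans (TR.trans hA (joinBelow_tr fun i hi => ?_))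
      exact (hinv _ _ (eqv_JI ⟨hAB, hBA⟩ i)).trans
        (tr_joinBelow hi fun i => φ (JI base i B))) with ⟨C, hC⟩ | h
    · exact absurd (const_of_joinJ hb hj hφ hinv hC) h1
    · exact h
  choose U hU using hup
  choose V hV using hdown
  refine ⟨bjoin (cjoin U) (cjoin V), fun A hA => ⟨fun i j hij h => ?_, fun j => ?_⟩⟩
  · obtain ⟨k, rfl⟩ : ∃ k, j = (k + 1) + i := ⟨j - i - 1, by omega⟩
    rw [JI_add] at h
    refine hU k (JI base i A) ?_ h
    exact (((tr_cjoin U k).trans (tr_bjoin_left _ _)).trans hA).trans (tr_JI hb A i)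
  · exact hV j A (((tr_cjoin V j).trans (tr_bjoin_right _ _)).trans hA)

theorem not_const_wildJ (hb : IsBase φ h base) : ¬ (ConstCone φ ∧ WildJ base φ) := by
  rintro ⟨⟨C, D, h1⟩, C', h2⟩
  obtain ⟨A, hA⟩ : ∃ A, A = bjoin C C' := ⟨_, rfl⟩
  have hC : TR C A := by rw [hA]; exact tr_bjoin_left _ _
  have hC' : TR C' A := by rw [hA]; exact tr_bjoin_right _ _
  exact (h2 A hC').1 0 1 Nat.zero_lt_one
    ((h1 _ (hC.trans (tr_JI hb A 0))).1.trans (h1 _ (hC.trans (tr_JI hb A 1))).2)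

theorem not_above_wildJ (hb : IsBase φ h base) : ¬ (AboveId φ ∧ WildJ base φ) := by
  rintro ⟨⟨C, h1⟩, C', h2⟩
  obtain ⟨A, hA⟩ : ∃ A, A = bjoin C C' := ⟨_, rfl⟩
  have hC : TR C A := by rw [hA]; exact tr_bjoin_left _ _
  have hC' : TR C' A := by rw [hA]; exact tr_bjoin_right _ _
  exact (h2 A hC').1 0 1 Nat.zero_lt_one
    ((tr_JJ_phi hb A).trans (h1 _ (hC.trans (tr_JI hb A 1))))

/-- the final form -/
theorem operator_trichotomy {φ h : (ℕ → Bool) → (ℕ → Bool)} (hφ : Measurable φ)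
    (hh : Measurable h) (hinv : ∀ A B, Eqv A B → TR (φ A) (φ B)) :
    ∃ base : ℕ → BC, (∀ A, TR A (JJ base A) ∧ TR (φ A) (JJ base A) ∧ TR (h A) (JJ base A)) ∧
      (ConstCone φ ∨ AboveId φ ∨ WildJ base φ) ∧
      ¬ (ConstCone φ ∧ WildJ base φ) ∧ ¬ (AboveId φ ∧ WildJ base φ) ∧
      (ConstCone φ ∨ ∀ (m : ℕ) (B : ℕ → Bool), ∃ W : ℕ → Bool, ∀ C, TR W C →
        ∃ a : ℕ → ℕ → Bool, (∀ j, TR B (a j) ∧ Eqv (JI base (m + 1) (a j)) C) ∧
          Eqv C (join5 fun j => φ (a j))) := by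
  have hm : Measurable fun a => bjoin (h a) (jump a) := measurable_bjoin hh measurable_jump
  obtain ⟨base, hb⟩ := exists_base hφ hm
  have hj : ∀ a, TR (jump a) (JJ base a) := fun a => (tr_bjoin_right _ _).trans (tr_JJ_h hb a)
  refine ⟨base, fun A => ⟨tr_JJ_self hb A, tr_JJ_phi hb A,
    (tr_bjoin_left _ _).trans (tr_JJ_h hb A)⟩, ?_, not_const_wildJ hb, not_above_wildJ hb, ?_⟩
  · by_cases h1 : ConstCone φ
    · exact Or.inl h1
    by_cases h2 : AboveId φ
    · exact Or.inr (Or.inl h2)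
    · exact Or.inr (Or.inr (op_trichotomy hb hj hφ hinv h1 h2))
  · by_cases h1 : ConstCone φ
    · exact Or.inl h1
    · exact Or.inr fun m B => op_five hb hφ hinv h1 m B

end Pool.Agent.MCmp
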