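import Pool.Agent.Lib.MGen.NameG

/-!
# Systems of blocks for dense families of pairs of strings
-/

set_option autoImplicit false

namespace Pool.Agent.MCmp

open Pool.Agent.GammaZero Pool.Agent.Mart Pool.Agent.MGen Encodable

/-- families of dense sets of pairs of strings, closed under extensions -/
structure PFam (E : ℕ → List Bool → List Bool → Prop) : Prop where
  mono : ∀ (i : ℕ) (σ σ' τ τ' : List Bool), σ <+: σ' → τ <+: τ' → E i σ τ → E i σ' τ'
  dense : ∀ (i : ℕ) (σ τ : List Bool), ∃ σ' τ', σ <+: σ' ∧ τ <+: τ' ∧ E i σ' τ'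

theorem PFam.and {E E' : ℕ → List Bool → List Bool → Prop} (h : PFam E) (h' : PFam E') :
    PFam fun i σ τ => E i σ τ ∧ E' i σ τ where
  mono i σ σ' τ τ' h1 h2 h3 := ⟨h.mono i _ _ _ _ h1 h2 h3.1, h'.mono i _ _ _ _ h1 h2 h3.2⟩
  dense i σ τ := by
    obtain ⟨σ', τ', h1, h2, h3⟩ := h.dense i σ τ
    obtain ⟨σ'', τ'', h4, h5, h6⟩ := h'.dense i σ' τ'
    exact ⟨σ'', τ'', h1.trans h4, h2.trans h5, h.mono i _ _ _ _ h4 h5 h3, h6⟩

theorem PFam.swap {E : ℕ → List Bool → List Bool → Prop} (h : PFam E) :
    PFam fun i σ τ => E i τ σ where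
  mono i σ σ' τ τ' h1 h2 h3 := h.mono i _ _ _ _ h2 h1 h3
  dense i σ τ := by
    obtain ⟨τ', σ', h1, h2, h3⟩ := h.dense i τ σ
    exact ⟨σ', τ', h2, h1, h3⟩

theorem PFam.of_left {D : ℕ → List Bool → Prop} (h : DFam D) :
    PFam fun i σ _ => D i σ where
  mono i σ σ' τ τ' h1 h2 h3 := h.mono i _ _ h1 h3
  dense i σ τ := by
    obtain ⟨σ', h1, h2⟩ := h.dense i σ
    exact ⟨σ', τ, h1, List.prefix_rfl, h2⟩

/-- a system of blocks for a family of pairs: at each level two different strings of the same
length, which lead into the `i`-th dense set, after any two strings of the right length -/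
structure PBlk (E : ℕ → List Bool → List Bool → Prop) (w : ℕ → Bool → List Bool) : Prop where
  len : ∀ i, (w i true).length = (w i false).length
  pos : ∀ i, 0 < (w i false).length
  ne : ∀ i, w i false ≠ w i true
  pr : ∀ (i : ℕ) (σ τ : List Bool), σ.length = bpos w i → τ.length = bpos w i →
    E i (σ ++ w i false) (τ ++ w i true)

private theorem pb_app {σ w v : List Bool} (h : w <+: v) : σ ++ w <+: σ ++ v :=
  (List.prefix_append_right_inj σ).2 h

private theorem pb_pad (a c : List Bool) :
    ∃ A C : List Bool, a <+: A ∧ c <+: C ∧ C.length = A.length := by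
  refine ⟨a ++ List.replicate c.length false, c ++ List.replicate a.length false,
    List.prefix_append _ _, List.prefix_append _ _, ?_⟩
  simp only [List.length_append, List.length_replicate]
  omega

private theorem pb_list {E : ℕ → List Bool → List Bool → Prop} (hE : PFam E) (i : ℕ)
    (L : List (List Bool × List Bool)) :
    ∃ w₀ w₁ : List Bool, [false] <+: w₀ ∧ [true] <+: w₁ ∧
      ∀ p ∈ L, E i (p.1 ++ w₀) (p.2 ++ w₁) := by
  induction L with
  | nil => exact ⟨[false], [true], List.prefix_rfl, List.prefix_rfl,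
      fun p hp => absurd hp List.not_mem_nil⟩
  | cons p L ih =>
    obtain ⟨w₀, w₁, h0, h1, h⟩ := ih
    obtain ⟨σ', τ', ⟨v₀, rfl⟩, ⟨v₁, rfl⟩, hE'⟩ := hE.dense i (p.1 ++ w₀) (p.2 ++ w₁)
    refine ⟨w₀ ++ v₀, w₁ ++ v₁, h0.trans (List.prefix_append _ _),
      h1.trans (List.prefix_append _ _), ?_⟩
    intro q hq
    rcases List.mem_cons.1 hq with rfl | hq
    · rw [← List.append_assoc, ← List.append_assoc]
      exact hE'
    · exact hE.mono _ _ _ _ _ (pb_app (List.prefix_append _ _)) (pb_app (List.prefix_append _ _))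
        (h q hq)

theorem pblock_exists {E : ℕ → List Bool → List Bool → Prop} (hE : PFam E) (N i : ℕ) :
    ∃ w₀ w₁ : List Bool, w₁.length = w₀.length ∧ 0 < w₀.length ∧ w₀ ≠ w₁ ∧
      ∀ σ τ : List Bool, σ.length = N → τ.length = N → E i (σ ++ w₀) (τ ++ w₁) := by
  have hfin : {l : List Bool | l.length = N}.Finite := List.finite_length_eq Bool N
  have hmem : ∀ σ : List Bool, σ.length = N → σ ∈ hfin.toFinset.toList := by
    intro σ hσ
    rw [Finset.mem_toList, Set.Finite.mem_toFinset]
    exact hσ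
  obtain ⟨w₀, w₁, h0, h1, hs⟩ := pb_list hE i
    (hfin.toFinset.toList ×ˢ hfin.toFinset.toList)
  obtain ⟨A, C, hA, hC, hl⟩ := pb_pad w₀ w₁
  have hA' : [false] <+: A := h0.trans hA
  have hC' : [true] <+: C := h1.trans hC
  refine ⟨A, C, hl, ?_, ?_, ?_⟩
  · obtain ⟨r, rfl⟩ := hA'
    simp
  · rintro rfl
    obtain ⟨r, rfl⟩ := hA'
    obtain ⟨r', hr'⟩ := hC'
    simp at hr'
  · intro σ τ hσ hτ
    refine hE.mono _ _ _ _ _ (pb_app hA) (pb_app hC) (hs (σ, τ) ?_)
    exact List.mem_product.2 ⟨hmem σ hσ, hmem τ hτ⟩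

/-- the first `N` binary digits of `c` -/
private def bs (N c : ℕ) : List Bool := (List.range N).map fun q => decide (bt c q = 1)

private theorem bs_length (N c : ℕ) : (bs N c).length = N := by simp [bs]

private theorem bs_surj (σ : List Bool) : ∃ c < 2 ^ σ.length, bs σ.length c = σ := by
  refine ⟨enc (fun q => ((σ[q]?).getD false).toNat) σ.length, enc_lt _ _, ?_⟩
  apply List.ext_getElem
  · simp [bs]
  · intro i h1 h2
    have hi : i < σ.length := h2
    simp only [bs, List.getElem_map, List.getElem_range]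
    rw [bt_enc _ hi, List.getElem?_eq_getElem hi]
    cases σ[i] <;> simp

private theorem bs_computable : Computable₂ bs := by
  have h : Primrec fun r : (ℕ × ℕ) × ℕ => r.1.2 / 2 ^ r.2 % 2 :=
    Primrec.nat_mod.comp (Primrec.nat_div.comp (Primrec.snd.comp Primrec.fst)
      (primrec_pow.comp (Primrec.const 2) Primrec.snd)) (Primrec.const 2)
  have h2 : Primrec fun r : (ℕ × ℕ) × ℕ => decide (bt r.1.2 r.2 = 1) :=
    (Primrec.eq.comp h (Primrec.const 1)).decide
  have h3 : Primrec fun p : ℕ × ℕ => bs p.1 p.2 :=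
    Primrec.list_map (Primrec.list_range.comp Primrec.fst) h2.to₂
  exact h3.to_comp.to₂

theorem pblocks_exist {X : ℕ → Bool} {E : ℕ → List Bool → List Bool → Prop} (hE : PFam E)
    (hEd : DI {orc X} (fun q : ℕ × List Bool × List Bool => E q.1 q.2.1 q.2.2)) :
    ∃ w : ℕ → Bool → List Bool, PBlk E w ∧
      CI {orc X} (fun q : ℕ × Bool => encode (w q.1 q.2)) := by
  let P : ℕ × ℕ → Prop := fun p =>
    (dl p.2.unpair.2).length = (dl p.2.unpair.1).length ∧ 0 < (dl p.2.unpair.1).length ∧
    encode (dl p.2.unpair.1) ≠ encode (dl p.2.unpair.2) ∧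
    ∀ c < 2 ^ p.1.unpair.1, ∀ d < 2 ^ p.1.unpair.1,
      E p.1.unpair.2 (bs p.1.unpair.1 c ++ dl p.2.unpair.1)
        (bs p.1.unpair.1 d ++ dl p.2.unpair.2)
  have c0 : Computable fun p : ℕ × ℕ => dl p.2.unpair.1 :=
    dl_computable.comp (Computable.fst.comp (Computable.unpair.comp Computable.snd))
  have c1 : Computable fun p : ℕ × ℕ => dl p.2.unpair.2 :=
    dl_computable.comp (Computable.snd.comp (Computable.unpair.comp Computable.snd))
  have cN : Computable fun p : ℕ × ℕ => p.1.unpair.1 :=
    Computable.fst.comp (Computable.unpair.comp Computable.fst)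
  have ci : Computable fun p : ℕ × ℕ => p.1.unpair.2 :=
    Computable.snd.comp (Computable.unpair.comp Computable.fst)
  have hP : DI {orc X} P := by
    refine DI.and (DI.eq (CI.of_computable (Computable.list_length.comp c1))
      (CI.of_computable (Computable.list_length.comp c0))) (DI.and (DI.lt (CI.const 0)
      (CI.of_computable (Computable.list_length.comp c0))) (DI.and (DI.not (DI.eq
      (CI.of_computable (Computable.encode.comp c0)) (CI.of_computable
      (Computable.encode.comp c1)))) ?_))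
    have cc : Computable fun r : ((ℕ × ℕ) × ℕ) × ℕ => bs r.1.1.1.unpair.1 r.1.2 :=
      bs_computable.comp (cN.comp (Computable.fst.comp Computable.fst))
        (Computable.snd.comp Computable.fst)
    have cd : Computable fun r : ((ℕ × ℕ) × ℕ) × ℕ => bs r.1.1.1.unpair.1 r.2 :=
      bs_computable.comp (cN.comp (Computable.fst.comp Computable.fst)) Computable.snd
    have hS : DI {orc X} (fun r : ((ℕ × ℕ) × ℕ) × ℕ =>
        E r.1.1.1.unpair.2 (bs r.1.1.1.unpair.1 r.1.2 ++ dl r.1.1.2.unpair.1)
          (bs r.1.1.1.unpair.1 r.2 ++ dl r.1.1.2.unpair.2)) :=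
      hEd.comp_computable (g := fun r : ((ℕ × ℕ) × ℕ) × ℕ =>
        (r.1.1.1.unpair.2, bs r.1.1.1.unpair.1 r.1.2 ++ dl r.1.1.2.unpair.1,
          bs r.1.1.1.unpair.1 r.2 ++ dl r.1.1.2.unpair.2))
        ((ci.comp (Computable.fst.comp Computable.fst)).pair
          ((Computable.list_append.comp cc (c0.comp (Computable.fst.comp Computable.fst))).pair
            (Computable.list_append.comp cd (c1.comp (Computable.fst.comp Computable.fst)))))
    have hS2 : DI {orc X} (fun r : (ℕ × ℕ) × ℕ => ∀ d < 2 ^ r.1.1.unpair.1,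
        E r.1.1.unpair.2 (bs r.1.1.unpair.1 r.2 ++ dl r.1.2.unpair.1)
          (bs r.1.1.unpair.1 d ++ dl r.1.2.unpair.2)) :=
      DI.ball hS (CI.pow (CI.const 2) (CI.of_computable (cN.comp Computable.fst)))
    exact DI.ball hS2 (CI.pow (CI.const 2) (CI.of_computable cN))
  have hex : ∀ a, ∃ n, P (a, n) := by
    intro a
    obtain ⟨w₀, w₁, h1, h2, h3, h4⟩ := pblock_exists hE a.unpair.1 a.unpair.2
    refine ⟨Nat.pair (encode w₀) (encode w₁), ?_⟩
    simp only [P, Nat.unpair_pair, dl_encode]
    exact ⟨h1, h2, fun h => h3 (Encodable.encode_injective h),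
      fun c _ d _ => h4 _ _ (bs_length _ _) (bs_length _ _)⟩
  obtain ⟨c, hc, hcP⟩ := choice hP hex
  let N : ℕ → ℕ := fun n => Nat.rec 0
    (fun i Ni => Ni + (dl (c (Nat.pair Ni i)).unpair.1).length) n
  have hN1 : ∀ i, N (i + 1) = N i + (dl (c (Nat.pair (N i) i)).unpair.1).length := fun _ => rfl
  have hN : CI {orc X} N := by
    have h1 : CI {orc X} (fun p : ℕ × ℕ × ℕ =>
        p.2.2 + (dl (c (Nat.pair p.2.2 p.2.1)).unpair.1).length) := by
      refine CI.add (CI.of_computable (Computable.snd.comp Computable.snd)) ?_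
      have h2 : CI {orc X} (fun p : ℕ × ℕ × ℕ => (c (Nat.pair p.2.2 p.2.1)).unpair.1) :=
        CI.left (CI.comp hc (CI.npair (CI.of_computable (Computable.snd.comp Computable.snd))
          (CI.of_computable (Computable.fst.comp Computable.snd))))
      exact CI.computable_comp (h := fun n => (dl n).length)
        (Computable.list_length.comp dl_computable) h2
    exact CI.sub (CI.natRec (CI.const (O := {orc X}) (α := ℕ) 0) h1)
      (CI.of_computable Computable.id)
  let w : ℕ → Bool → List Bool := fun i b =>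
    if b = true then dl (c (Nat.pair (N i) i)).unpair.2 else dl (c (Nat.pair (N i) i)).unpair.1
  have hwt : ∀ i, w i true = dl (c (Nat.pair (N i) i)).unpair.2 := fun i => if_pos rfl
  have hwf : ∀ i, w i false = dl (c (Nat.pair (N i) i)).unpair.1 := fun i =>
    if_neg Bool.false_ne_true
  have hpos : ∀ i, bpos w i = N i := by
    intro i
    induction i with
    | zero => rfl
    | succ i ih => rw [bpos_succ, ih, hN1, hwf]
  have hspec : ∀ i, (w i true).length = (w i false).length ∧ 0 < (w i false).length ∧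
      w i false ≠ w i true ∧
      ∀ σ τ : List Bool, σ.length = bpos w i → τ.length = bpos w i →
        E i (σ ++ w i false) (τ ++ w i true) := by
    intro i
    have h := hcP (Nat.pair (N i) i)
    simp only [P, Nat.unpair_pair] at h
    obtain ⟨h1, h2, h3, h4⟩ := h
    rw [hwt, hwf]
    refine ⟨h1, h2, fun h => h3 (by rw [h]), fun σ τ hσ hτ => ?_⟩
    obtain ⟨d, hd, hdσ⟩ := bs_surj σ
    obtain ⟨d', hd', hdτ⟩ := bs_surj τ
    rw [hσ, hpos] at hd hdσ
    rw [hτ, hpos] at hd' hdτ
    have h5 := h4 d hd d' hd'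
    rw [hdσ, hdτ] at h5
    exact h5
  refine ⟨w, ⟨fun i => (hspec i).1, fun i => (hspec i).2.1, fun i => (hspec i).2.2.1,
    fun i => (hspec i).2.2.2⟩, ?_⟩
  have h1 : CI {orc X} (fun q : ℕ × Bool => c (Nat.pair (N q.1) q.1)) :=
    CI.comp hc (CI.npair (CI.comp hN (CI.of_computable Computable.fst))
      (CI.of_computable Computable.fst))
  have h2 : Computable fun n : ℕ => encode (dl n) := Computable.encode.comp dl_computable
  have h3 : DI {orc X} (fun q : ℕ × Bool => (encode q.2) = encode true) :=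
    DI.eq (CI.of_computable (Computable.encode.comp Computable.snd)) (CI.const _)
  have h4 : DI {orc X} (fun q : ℕ × Bool => q.2 = true) :=
    h3.of_iff fun a => ⟨fun h => by rw [h], fun h => Encodable.encode_injective h⟩
  refine (CI.ite h4 (CI.computable_comp h2 (CI.right h1))
    (CI.computable_comp h2 (CI.left h1))).congr fun q => ?_
  obtain ⟨i, b⟩ := q
  cases b
  · simp only [hwf]
    rfl
  · simp only [hwt]
    rfl

/-- the complementary branch -/
def flip (e : ℕ → Bool) (i : ℕ) : Bool := !(e i)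

theorem flip_flip (e : ℕ → Bool) : flip (flip e) = e := by
  funext i
  simp [flip]

theorem flip_tr (e : ℕ → Bool) : TR (flip e) e := by
  rw [tr_iff_ci]
  refine ((CI.const 1).tsub (ci_orc e)).congr fun n => ?_
  unfold flip
  cases e n <;> rfl

theorem tr_flip (e : ℕ → Bool) : TR e (flip e) := by
  have := flip_tr (flip e)
  rwa [flip_flip] at this

/-- the pair of complementary branches meets all dense sets -/
theorem PBlk.meet {E : ℕ → List Bool → List Bool → Prop} {w : ℕ → Bool → List Bool}
    (hB : PBlk E w) (hsym : ∀ i σ τ, E i σ τ → E i τ σ) (e : ℕ → Bool) (i : ℕ) :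
    E i (pre (brn w e) (bpos w (i + 1))) (pre (brn w (flip e)) (bpos w (i + 1))) := by
  have h1 := pre_brn hB.len hB.pos e (i + 1)
  have h2 := pre_brn hB.len hB.pos (flip e) (i + 1)
  rw [h1, h2]
  show E i (stm w e i ++ w i (e i)) (stm w (flip e) i ++ w i (flip e i))
  have h3 := hB.pr i (stm w e i) (stm w (flip e) i) (stm_length hB.len e i)
    (stm_length hB.len (flip e) i)
  have h4 := hB.pr i (stm w (flip e) i) (stm w e i) (stm_length hB.len (flip e) i)
    (stm_length hB.len e i)
  unfold flip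
  cases hb : e i
  · exact h3
  · exact hsym _ _ _ h4

end Pool.Agent.MCmp
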